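import Pool.Agent.Run7.h614.PG.Low

/-!
# Transport of the first `m` steps to spaces of dimension at least `m + 2`
-/

set_option autoImplicit false

namespace Pool.Agent.Run7.h614.PG

open N298.PGA

section

variable {E H : Type*} [NormedAddCommGroup E] [InnerProductSpace ℝ E]
  [NormedAddCommGroup H] [InnerProductSpace ℝ H]

/-- a space of dimension at least `n` has an orthonormal family of `n` vectors -/
theorem exists_onf (n : ℕ) (h : (n : Cardinal) ≤ Module.rank ℝ H) :
    ∃ e : Fin n → H, Orthonormal ℝ e := by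
  obtain ⟨s, hs, hl⟩ := le_rank_iff_exists_linearIndependent_finset.1 h
  have h1 : LinearIndependent ℝ (fun i : Fin n => ((s.equivFinOfCardEq hs).symm i : H)) :=
    hl.comp _ (s.equivFinOfCardEq hs).symm.injective
  exact ⟨InnerProductSpace.gramSchmidtNormed ℝ _, InnerProductSpace.gramSchmidtNormed_orthonormal h1⟩

/-- finite-dimensional spaces embed isometrically -/
theorem exists_iso (V : Submodule ℝ E) [FiniteDimensional ℝ V] (n : ℕ)
    (hV : Module.finrank ℝ V ≤ n) (h : (n : Cardinal) ≤ Module.rank ℝ H) :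
    ∃ T : V →ₗ[ℝ] H, ∀ x y : V, inner ℝ (T x) (T y) = inner ℝ (x : E) (y : E) := by
  obtain ⟨e, he⟩ := exists_onf n h
  set b := stdOrthonormalBasis ℝ V with hb
  have he' : Orthonormal ℝ (fun i : Fin (Module.finrank ℝ V) => e (Fin.castLE hV i)) :=
    he.comp _ (Fin.castLE_injective hV)
  set T0 : V →ₗ[ℝ] H := b.toBasis.constr ℝ (fun i => e (Fin.castLE hV i)) with hT0
  have h1 : Orthonormal ℝ b.toBasis := by
    rw [b.coe_toBasis]
    exact b.orthonormal
  have h2 : Orthonormal ℝ (T0 ∘ b.toBasis) := by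
    have : T0 ∘ b.toBasis = fun i => e (Fin.castLE hV i) := by
      funext i
      rw [Function.comp_apply, hT0, Module.Basis.constr_basis]
    rw [this]
    exact he'
  refine ⟨(LinearMap.isometryOfOrthonormal T0 h1 h2).toLinearMap, fun x y => ?_⟩
  have := (LinearMap.isometryOfOrthonormal T0 h1 h2).inner_map_map x y
  rw [Submodule.coe_inner] at this
  exact this

open Classical in
/-- extension by zero of a map on a subspace -/
noncomputable def ext (V : Submodule ℝ E) (T : V →ₗ[ℝ] H) (x : E) : H :=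
  if hx : x ∈ V then T ⟨x, hx⟩ else 0

lemma ext_of {V : Submodule ℝ E} {T : V →ₗ[ℝ] H} {x : E} (hx : x ∈ V) : ext V T x = T ⟨x, hx⟩ :=
  dif_pos hx

lemma ext_add {V : Submodule ℝ E} {T : V →ₗ[ℝ] H} {x y : E} (hx : x ∈ V) (hy : y ∈ V) :
    ext V T (x + y) = ext V T x + ext V T y := by
  rw [ext_of hx, ext_of hy, ext_of (V.add_mem hx hy), ← map_add]
  rfl

lemma ext_sub {V : Submodule ℝ E} {T : V →ₗ[ℝ] H} {x y : E} (hx : x ∈ V) (hy : y ∈ V) :
    ext V T (x - y) = ext V T x - ext V T y := by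
  rw [ext_of hx, ext_of hy, ext_of (V.sub_mem hx hy), ← map_sub]
  rfl

lemma ext_smul {V : Submodule ℝ E} {T : V →ₗ[ℝ] H} {x : E} (c : ℝ) (hx : x ∈ V) :
    ext V T (c • x) = c • ext V T x := by
  rw [ext_of hx, ext_of (V.smul_mem c hx), ← map_smul]
  rfl

lemma ext_zero {V : Submodule ℝ E} {T : V →ₗ[ℝ] H} : ext V T 0 = 0 := by
  rw [ext_of V.zero_mem]
  exact map_zero T

lemma ext_inner {V : Submodule ℝ E} {T : V →ₗ[ℝ] H}
    (hT : ∀ x y : V, inner ℝ (T x) (T y) = inner ℝ (x : E) (y : E)) {x y : E} (hx : x ∈ V)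
    (hy : y ∈ V) : inner ℝ (ext V T x) (ext V T y) = inner ℝ x y := by
  rw [ext_of hx, ext_of hy, hT]

lemma ext_norm {V : Submodule ℝ E} {T : V →ₗ[ℝ] H}
    (hT : ∀ x y : V, inner ℝ (T x) (T y) = inner ℝ (x : E) (y : E)) {x : E} (hx : x ∈ V) :
    ‖ext V T x‖ = ‖x‖ := by
  have h := ext_inner hT hx hx
  rw [real_inner_self_eq_norm_sq, real_inner_self_eq_norm_sq] at h
  exact (sq_eq_sq₀ (norm_nonneg _) (norm_nonneg _)).1 h

/-- the first `m` steps of a critical sequence, in a space of dimension at least `m + 2` -/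
theorem exists_dict {f g h : E} {φ G : ℕ → E} (C : Crit f g h φ G) (m : ℕ)
    (hH : ((m + 2 : ℕ) : Cardinal) ≤ Module.rank ℝ H) :
    ∃ (D : Set H) (g' h' : H) (φ' G' : ℕ → H), IsDictionary D ∧ g' ∈ D ∧ h' ∈ D ∧
      IsPGA D ((1 / 2 : ℝ) • (g' + h')) m φ' G' ∧
      ∀ j ≤ m, ‖(1 / 2 : ℝ) • (g' + h') - G' j‖ = ‖f - G j‖ := by
  classical
  set F : Finset E := insert g (insert h ((Finset.Icc 1 m).image φ)) with hF
  set V : Submodule ℝ E := Submodule.span ℝ (F : Set E) with hV
  have hfd : FiniteDimensional ℝ V := FiniteDimensional.span_finset ℝ F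
  have hcard : F.card ≤ m + 2 := by
    refine (Finset.card_insert_le _ _).trans ?_
    have h1 := Finset.card_insert_le h ((Finset.Icc 1 m).image φ)
    have h2 : ((Finset.Icc 1 m).image φ).card ≤ m := by
      refine Finset.card_image_le.trans ?_
      rw [Nat.card_Icc]
      omega
    omega
  have hrk : Module.finrank ℝ V ≤ m + 2 := (finrank_span_finset_le_card F).trans hcard
  obtain ⟨T, hT⟩ := exists_iso V (m + 2) hrk hH
  have hmemF : ∀ x ∈ F, x ∈ V := fun x hx => Submodule.subset_span hx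
  have hgF : g ∈ F := Finset.mem_insert_self _ _
  have hhF : h ∈ F := Finset.mem_insert_of_mem (Finset.mem_insert_self _ _)
  have hφF : ∀ k < m, φ (k + 1) ∈ F := fun k hk => Finset.mem_insert_of_mem
    (Finset.mem_insert_of_mem (Finset.mem_image_of_mem _ (Finset.mem_Icc.2 ⟨by omega, by omega⟩)))
  have hgV := hmemF g hgF
  have hhV := hmemF h hhF
  have hfV : f ∈ V := by
    rw [C.hf]
    exact V.smul_mem _ (V.add_mem hgV hhV)
  have hGV : ∀ k ≤ m, G k ∈ V := by
    intro k
    induction k with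
    | zero =>
      intro _
      rw [C.zero]
      exact V.zero_mem
    | succ k ih =>
      intro hk
      rw [C.step]
      exact V.add_mem (ih (by omega)) (V.smul_mem _ (hmemF _ (hφF k (by omega))))
  set W : Submodule ℝ H := LinearMap.range T with hW
  have hWfd : FiniteDimensional ℝ W := LinearMap.finiteDimensional_range T
  have hWc : CompleteSpace W := FiniteDimensional.complete ℝ W
  have hextW : ∀ x ∈ V, ext V T x ∈ W := by
    intro x hx
    rw [ext_of hx]
    exact LinearMap.mem_range_self T _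
  set D : Set H := (ext V T '' (F : Set E)) ∪ {x | ‖x‖ = 1 ∧ x ∈ Wᗮ} with hD
  have hf' : (1 / 2 : ℝ) • (ext V T g + ext V T h) = ext V T f := by
    rw [C.hf, ext_smul _ (V.add_mem hgV hhV), ext_add hgV hhV]
  refine ⟨D, ext V T g, ext V T h, fun k => ext V T (φ k), fun k => ext V T (G k), ⟨?_, ?_⟩,
    Or.inl ⟨g, hgF, rfl⟩, Or.inl ⟨h, hhF, rfl⟩, ⟨?_, ?_, ?_, ?_⟩, ?_⟩
  · rintro x (⟨y, hy, rfl⟩ | hx)
    · rw [ext_norm hT (hmemF y hy)]
      rw [Finset.mem_coe, hF, Finset.mem_insert, Finset.mem_insert, Finset.mem_image] at hy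
      rcases hy with rfl | rfl | ⟨i, hi, rfl⟩
      · exact C.hg
      · exact C.hh
      · rw [Finset.mem_Icc] at hi
        obtain ⟨i', rfl⟩ : ∃ i', i = i' + 1 := ⟨i - 1, by omega⟩
        exact C.hφ i'
    · exact hx.1
  · have key : ∀ w ∈ V, ext V T w ∈ Submodule.span ℝ D := by
      intro w hw
      induction hw using Submodule.span_induction with
      | mem x hx => exact Submodule.subset_span (Or.inl ⟨x, hx, rfl⟩)
      | zero => rw [ext_zero]; exact Submodule.zero_mem _
      | add x y hx hy h1 h2 => rw [ext_add hx hy]; exact Submodule.add_mem _ h1 h2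
      | smul c x hx h1 => rw [ext_smul c hx]; exact Submodule.smul_mem _ c h1
    have htop : Submodule.span ℝ D = ⊤ := by
      rw [Submodule.eq_top_iff']
      intro x
      obtain ⟨y, hy, z, hz, rfl⟩ := Submodule.exists_add_mem_mem_orthogonal (K := W) x
      refine Submodule.add_mem _ ?_ ?_
      · obtain ⟨w, rfl⟩ := hy
        have := key w w.2
        rw [ext_of w.2] at this
        exact this
      · by_cases hz0 : z = 0
        · rw [hz0]; exact Submodule.zero_mem _
        · have hzn : 0 < ‖z‖ := norm_pos_iff.2 hz0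
          have h1 : ‖z‖⁻¹ • z ∈ D := by
            refine Or.inr ⟨?_, Submodule.smul_mem _ _ hz⟩
            rw [norm_smul, norm_inv, norm_norm]
            exact inv_mul_cancel₀ hzn.ne'
          have h2 : z = ‖z‖ • (‖z‖⁻¹ • z) := by
            rw [smul_smul, mul_inv_cancel₀ hzn.ne', one_smul]
          rw [h2]
          exact Submodule.smul_mem _ _ (Submodule.subset_span h1)
    rw [htop]
    simp
  · simp only [C.zero]
    exact ext_zero
  · intro k hk
    exact Or.inl ⟨φ (k + 1), hφF k hk, rfl⟩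
  · intro k hk x hx
    rw [hf', ← ext_sub hfV (hGV k hk.le)]
    have hr : f - G k ∈ V := V.sub_mem hfV (hGV k hk.le)
    rw [ext_inner hT hr (hmemF _ (hφF k hk))]
    rcases hx with ⟨y, hy, rfl⟩ | hx
    · rw [ext_inner hT hr (hmemF y hy)]
      rw [Finset.mem_coe, hF, Finset.mem_insert, Finset.mem_insert, Finset.mem_image] at hy
      rcases hy with rfl | rfl | ⟨i, hi, rfl⟩
      · exact C.gg k
      · exact C.gh k
      · rw [Finset.mem_Icc] at hi
        obtain ⟨i', rfl⟩ : ∃ i', i = i' + 1 := ⟨i - 1, by omega⟩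
        exact C.gφ k i'
    · rw [Submodule.inner_right_of_mem_orthogonal (hextW _ hr) hx.2, abs_zero]
      exact abs_nonneg _
  · intro k hk
    rw [hf', ← ext_sub hfV (hGV k hk.le)]
    have hr : f - G k ∈ V := V.sub_mem hfV (hGV k hk.le)
    have hp := hmemF _ (hφF k hk)
    rw [ext_inner hT hr hp, C.step k, ext_add (hGV k hk.le) (V.smul_mem _ hp), ext_smul _ hp]
  · intro j hj
    rw [hf', ← ext_sub hfV (hGV j hj), ext_norm hT (V.sub_mem hfV (hGV j hj))]

end

end Pool.Agent.Run7.h614.PG
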