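import Pool.Agent.Run7.h614.PG.Fin

/-!
# One dictionary for all numbers of steps; auxiliary facts
-/

set_option autoImplicit false

namespace Pool.Agent.Run7.h614.PG

open N298.PGA

open scoped ENNReal

theorem mean_mem {H : Type*} [NormedAddCommGroup H] [InnerProductSpace ℝ H] {D : Set H} {g h : H}
    (hg : g ∈ D) (hh : h ∈ D) : (1 / 2 : ℝ) • (g + h) ∈ A1 D := by
  apply subset_closure
  refine ⟨2, ![1/2, 1/2], ![g, h], ?_, ?_, ?_⟩
  · intro i
    fin_cases i
    · exact hg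
    · exact hh
  · simp [Fin.sum_univ_two, abs_of_pos]; norm_num
  · simp only [Fin.sum_univ_two, Matrix.cons_val_zero, Matrix.cons_val_one]
    rw [← smul_add]

theorem lp_inf : ¬ FiniteDimensional ℝ (lp (fun _ : ℕ => ℝ) 2) := by
  intro h
  have h1 : Orthonormal ℝ (fun i : ℕ => (lp.single 2 i (1 : ℝ) : lp (fun _ : ℕ => ℝ) 2)) := by
    rw [orthonormal_iff_ite]
    intro i j
    rw [lp.inner_single_left]
    by_cases hij : i = j
    · subst hij
      simp
    · rw [lp.single_apply_ne _ _ _ hij]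
      simp [hij]
  have h2 := h1.linearIndependent
  have := h2.finite
  exact not_finite ℕ

/-- the dictionary of a critical sequence in a complete space -/
theorem exists_dict_inf {H : Type*} [NormedAddCommGroup H] [InnerProductSpace ℝ H] [CompleteSpace H]
    {f g h : H} {φ G : ℕ → H} (C : Crit f g h φ G)
    (ho : ∀ x : H, (∀ i, (inner ℝ (φ (i + 1)) x) = 0) → (inner ℝ g x) = 0 → (inner ℝ h x) = 0 →
          ∀ k, (inner ℝ (f - G k) x) = 0) :
    ∃ D : Set H, IsDictionary D ∧ g ∈ D ∧ h ∈ D ∧ ∀ m, IsPGA D f m φ G := by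
  set D : Set H := {x | (∃ i, x = φ (i + 1)) ∨ x = g ∨ x = h ∨
    (‖x‖ = 1 ∧ (∀ i, (inner ℝ (φ (i + 1)) x) = 0) ∧ (inner ℝ g x) = 0 ∧ (inner ℝ h x) = 0)} with hD
  refine ⟨D, ⟨?_, ?_⟩, Or.inr (Or.inl rfl), Or.inr (Or.inr (Or.inl rfl)), fun m => ⟨C.zero, ?_, ?_, ?_⟩⟩
  · rintro x (⟨i, rfl⟩ | rfl | rfl | ⟨h, -⟩)
    · exact C.hφ i
    · exact C.hg
    · exact C.hh
    · exact h
  · rw [← Submodule.topologicalClosure_coe, ← Submodule.top_coe (R := ℝ) (M := H)]
    congr 1
    rw [Submodule.topologicalClosure_eq_top_iff, Submodule.eq_bot_iff]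
    intro x hx
    rw [Submodule.mem_orthogonal] at hx
    by_contra hne
    have hxn : 0 < ‖x‖ := norm_pos_iff.2 hne
    have hmem : ∀ y ∈ D, (inner ℝ y x) = 0 := fun y hy => hx y (Submodule.subset_span hy)
    have h1 : (‖x‖⁻¹ • x) ∈ D := by
      refine Or.inr (Or.inr (Or.inr ⟨?_, ?_, ?_, ?_⟩))
      · rw [norm_smul, norm_inv, norm_norm]; exact inv_mul_cancel₀ hxn.ne'
      · intro i
        rw [real_inner_smul_right, hmem _ (Or.inl ⟨i, rfl⟩), mul_zero]
      · rw [real_inner_smul_right, hmem _ (Or.inr (Or.inl rfl)), mul_zero]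
      · rw [real_inner_smul_right, hmem _ (Or.inr (Or.inr (Or.inl rfl))), mul_zero]
    have h2 := hmem _ h1
    rw [real_inner_smul_left, real_inner_self_eq_norm_sq] at h2
    have : 0 < ‖x‖⁻¹ * ‖x‖ ^ 2 := by positivity
    linarith
  · intro k _
    exact Or.inl ⟨k, rfl⟩
  · intro k _ x hx
    rcases hx with ⟨i, rfl⟩ | rfl | rfl | ⟨_, h1, h2, h3⟩
    · exact C.gφ k i
    · exact C.gg k
    · exact C.gh k
    · rw [ho x h1 h2 h3 k, abs_zero]
      exact abs_nonneg _
  · intro k _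
    exact C.step k

end Pool.Agent.Run7.h614.PG
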