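import Pool.Agent.N298.PGA.Low2

/-!
# The critical sequence of the Pure Greedy Algorithm, with an element `f` which is the mean of two
members of the dictionary

The proof is the one of `N298.PGA.lower` (starting file `Pool/Agent/N298/PGA/Low2.lean`); the
statement does not mention a dictionary, so that it can be used in finite-dimensional spaces.
-/

set_option autoImplicit false

namespace Pool.Agent.Run7.h614.PG

open N298.PGA Real Finset Filter Topology

/-- a critical sequence: `φ 1, φ 2, …`, `g`, `h` are unit vectors, and `G` is a realization of the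
algorithm for `(g + h) / 2` with the choices `φ k`; the sequence `φ k` is greedy against
`φ 1, φ 2, …`, `g`, `h` and against all vectors orthogonal to these -/
structure Crit {H : Type*} [NormedAddCommGroup H] [InnerProductSpace ℝ H] (f g h : H) (φ G : ℕ → H) :
    Prop where
  hf : f = (1 / 2 : ℝ) • (g + h)
  hg : ‖g‖ = 1
  hh : ‖h‖ = 1
  hφ : ∀ k, ‖φ (k + 1)‖ = 1
  zero : G 0 = 0
  step : ∀ k, G (k + 1) = G k + (inner ℝ (f - G k) (φ (k + 1))) • φ (k + 1)
  gφ : ∀ k i, |inner ℝ (f - G k) (φ (i + 1))| ≤ |inner ℝ (f - G k) (φ (k + 1))|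
  gg : ∀ k, |inner ℝ (f - G k) g| ≤ |inner ℝ (f - G k) (φ (k + 1))|
  gh : ∀ k, |inner ℝ (f - G k) h| ≤ |inner ℝ (f - G k) (φ (k + 1))|

/-- the lower bound for critical sequences -/
theorem exists_crit {v : ℝ} (hv : IsRoot v) : ∃ κ : ℝ, 0 < κ ∧
    ∀ (H : Type*) [NormedAddCommGroup H] [InnerProductSpace ℝ H] [CompleteSpace H],
      ¬ FiniteDimensional ℝ H → ∃ (f g h : H) (φ G : ℕ → H), Crit f g h φ G ∧
        (∀ x : H, (∀ i, (inner ℝ (φ (i + 1)) x) = 0) → (inner ℝ g x) = 0 → (inner ℝ h x) = 0 →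
          ∀ k, (inner ℝ (f - G k) x) = 0) ∧
        ∀ m : ℕ, 1 ≤ m → κ * (m:ℝ) ^ (-((1 - v) / (2 * (1 + v)))) ≤ ‖f - G m‖ := by
  set c : ℕ := 2000 with hcdef
  have hc' : 2000 ≤ c := le_rfl
  have hc : 2 ≤ c := by omega
  have S := sysNN hv hc
  have hb := be_pos hv
  have hb1 := be_lt hv
  have hvp := hv.pos
  set K1 : ℝ := (8 * c + 100) / be v with hK1
  have hK1p : 0 < K1 := by positivity
  have hW0 : 0 ≤ Wb v c 0 := (dd_nonneg hc' 0).trans (dd_le hc' hv 0)
  set L : ℝ := K1 + 4 * Real.sqrt (Wb v c 0) + 1 with hL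
  have hLp : 0 < L := by positivity
  refine ⟨(c:ℝ) ^ (-((1 - v) / (2 * (1 + v)))) / L, by positivity, ?_⟩
  intro H _ _ _ hH
  obtain ⟨φ, b, hφ, hb1', hbφ⟩ := realize (Gm (aa (be v) c) (rho (be v) c) (NN v c))
    (fun i j => Gm_symm i j) (by
      intro n x
      have := QQ_ge hv hc' n x
      have h2 : 0 ≤ ∑ i ∈ range n, x i ^ 2 := Finset.sum_nonneg fun i _ => sq_nonneg _
      unfold QQ at this
      linarith) H hH
  obtain ⟨f0, P1, P2, P3, P4, P5⟩ := exists_f0 hc' hv hφ
  have hf0L : ‖f0‖ ≤ L := by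
    have h1 : ‖f0‖ ≤ Real.sqrt (16 * Wb v c 0) := Real.le_sqrt_of_sq_le P3
    have h2 : Real.sqrt (16 * Wb v c 0) = 4 * Real.sqrt (Wb v c 0) := by
      rw [Real.sqrt_mul (by norm_num)]
      congr 1
      rw [show (16:ℝ) = 4 ^ 2 by norm_num, Real.sqrt_sq (by norm_num)]
    rw [h2] at h1
    linarith
  have hK1L : K1 ≤ L := by
    have := Real.sqrt_nonneg (Wb v c 0)
    linarith
  set f : H := L⁻¹ • f0 with hf
  have hfn : ‖f‖ ^ 2 ≤ 1 := by
    rw [hf, norm_smul, Real.norm_eq_abs, abs_of_pos (by positivity), mul_pow, inv_pow,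
      inv_mul_le_iff₀ (by positivity), mul_one]
    exact pow_le_pow_left₀ (norm_nonneg _) hf0L 2
  set s : ℝ := Real.sqrt (1 - ‖f‖ ^ 2) with hs
  have hs2 : s ^ 2 = 1 - ‖f‖ ^ 2 := Real.sq_sqrt (by linarith)
  have hfb : (inner ℝ f b) = 0 := by
    rw [hf, real_inner_smul_left, P5 b (fun i => by rw [real_inner_comm]; exact hbφ i), mul_zero]
  set gp : H := f + s • b with hgp
  set gm : H := f - s • b with hgm
  have hgpn : ‖gp‖ = 1 := by
    have h1 : ‖gp‖ ^ 2 = 1 := by
      rw [hgp, nsq_add f b s hfb hb1', hs2]; ring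
    have h2 := norm_nonneg gp
    nlinarith
  have hgmn : ‖gm‖ = 1 := by
    have h1 : ‖gm‖ ^ 2 = 1 := by
      rw [hgm, nsq_sub f b s hfb hb1', hs2]; ring
    have h2 := norm_nonneg gm
    nlinarith
  have hres : ∀ k, f - L⁻¹ • SS v c φ 0 k = L⁻¹ • (f0 - SS v c φ 0 k) := by
    intro k; rw [hf, smul_sub]
  have hLi : 0 < L⁻¹ := by positivity
  have hg1 : ∀ k, inner ℝ (f - L⁻¹ • SS v c φ 0 k) (φ k) = L⁻¹ * aa (be v) c k := by
    intro k
    rw [hres k, real_inner_smul_left, P1, FF_self]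
  have hff : ∀ k, |(inner ℝ (f0 - SS v c φ 0 k) f)| ≤ aa (be v) c k := by
    intro k
    rw [hf, real_inner_smul_right, abs_mul, abs_of_pos hLi, inv_mul_le_iff₀ hLp]
    exact (P4 k).trans (mul_le_mul_of_nonneg_right hK1L (S.apos k).le)
  have hfbk : ∀ k, (inner ℝ (f0 - SS v c φ 0 k) b) = 0 := by
    intro k
    rw [inner_sub_left, P5 b (fun i => by rw [real_inner_comm]; exact hbφ i)]
    unfold SS
    rw [sum_inner, Finset.sum_eq_zero, sub_zero]
    intro i _
    rw [real_inner_smul_left, real_inner_comm, hbφ i, mul_zero]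
  refine ⟨f, gp, gm, fun k => φ (k-1), fun k => L⁻¹ • SS v c φ 0 k,
    ⟨?_, hgpn, hgmn, ?_, ?_, ?_, ?_, ?_, ?_⟩, ?_, ?_⟩
  · rw [hgp, hgm]
    have : f + s • b + (f - s • b) = (2:ℝ) • f := by rw [two_smul]; abel
    rw [this, smul_smul]; norm_num
  · intro k
    simp only [Nat.add_sub_cancel]
    have : ‖φ k‖ ^ 2 = 1 := by rw [← real_inner_self_eq_norm_sq, hφ, Gm_self]
    have h2 := norm_nonneg (φ k)
    nlinarith
  · simp [SS]
  · intro k
    simp only [Nat.add_sub_cancel]
    rw [hres k, real_inner_smul_left, P1, FF_self]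
    have : SS v c φ 0 (k+1) = SS v c φ 0 k + aa (be v) c k • φ k := by
      unfold SS; rw [Finset.sum_Ico_succ_top (Nat.zero_le k)]
    rw [this, smul_add, smul_smul]
  · intro k i
    simp only [Nat.add_sub_cancel]
    rw [hres k, real_inner_smul_left, real_inner_smul_left, abs_mul, abs_mul, P1, P1, FF_self,
      abs_of_pos (S.apos k)]
    exact mul_le_mul_of_nonneg_left (S.FF_abs_le k i) (abs_nonneg _)
  · intro k
    simp only [Nat.add_sub_cancel]
    rw [hres k, real_inner_smul_left, real_inner_smul_left, abs_mul, abs_mul, P1, FF_self,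
      abs_of_pos (S.apos k)]
    apply mul_le_mul_of_nonneg_left _ (abs_nonneg _)
    rw [hgp, inner_add_right, real_inner_smul_right _ b s, hfbk k, mul_zero, add_zero]; exact hff k
  · intro k
    simp only [Nat.add_sub_cancel]
    rw [hres k, real_inner_smul_left, real_inner_smul_left, abs_mul, abs_mul, P1, FF_self,
      abs_of_pos (S.apos k)]
    apply mul_le_mul_of_nonneg_left _ (abs_nonneg _)
    rw [hgm, inner_sub_right, real_inner_smul_right _ b s, hfbk k, mul_zero, sub_zero]; exact hff k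
  · intro x h1 _ _ k
    have h1' : ∀ i, (inner ℝ (φ i) x) = 0 := by
      intro i
      have := h1 i
      simpa using this
    rw [hres k, real_inner_smul_left, inner_sub_left, P5 x h1']
    unfold SS
    rw [sum_inner, Finset.sum_eq_zero, sub_zero, mul_zero]
    intro i _
    rw [real_inner_smul_left, h1' i, mul_zero]
  · -- lower bound
    intro m hm
    simp only
    rw [hres m, norm_smul, Real.norm_eq_abs, abs_of_pos hLi]
    have hmr : (1:ℝ) ≤ m := by exact_mod_cast hm
    have hcr : (0:ℝ) < c := by rw [hcdef]; norm_num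
    have hcm : (0:ℝ) < c * m := by positivity
    have hnu : nu c m - 1 ≤ c * m := by
      have e : nu c m = (m:ℝ) + c := rfl
      have : (1:ℝ) ≤ c := by rw [hcdef]; norm_num
      rw [e]; nlinarith
    have hnu2 : 0 < nu c m - 1 := by have := two_le_nu hc m; linarith
    -- a_m ≥ (ν_m - 1)^{-β}
    have hQ := Q_mono hb hb1 hc (Nat.zero_le m)
    simp only [aa_zero, one_mul] at hQ
    have h0 : 1 ≤ (nu c 0 - 1) ^ be v := by
      apply Real.one_le_rpow _ hb.le
      have e : nu c 0 = c := by simp [nu]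
      rw [e, hcdef]; norm_num
    have ham : (nu c m - 1) ^ (-(be v)) ≤ aa (be v) c m := by
      have hp : 0 < (nu c m - 1) ^ be v := Real.rpow_pos_of_pos hnu2 _
      rw [Real.rpow_neg hnu2.le, inv_le_iff_one_le_mul₀ hp]
      linarith
    have hd : (nu c m - 1) ^ (1 - 2 * be v) ≤ dd v c m := by
      unfold dd
      have h1 : (nu c m - 1) ^ (1 - 2 * be v) = (nu c m - 1) * ((nu c m - 1) ^ (-(be v))) ^ 2 := by
        rw [← Real.rpow_natCast, ← Real.rpow_mul hnu2.le]
        conv_rhs => rw [← Real.rpow_one (nu c m - 1)]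
        rw [Real.rpow_one, ← Real.rpow_one_add' hnu2.le]
        · congr 1; push_cast; ring
        · push_cast; linarith [be_gt hv]
      rw [h1]
      apply mul_le_mul_of_nonneg_left _ hnu2.le
      exact pow_le_pow_left₀ (by positivity) ham 2
    have hal : (1 - 2 * be v) = 2 * (-((1 - v) / (2 * (1 + v)))) := by
      unfold be; field_simp; ring
    have hcmp : (c * m : ℝ) ^ (1 - 2 * be v) ≤ (nu c m - 1) ^ (1 - 2 * be v) :=
      Real.rpow_le_rpow_of_nonpos hnu2 hnu (by linarith [be_gt hv])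
    have hfin : ((c * m : ℝ) ^ (-((1 - v) / (2 * (1 + v))))) ^ 2 ≤ ‖f0 - SS v c φ 0 m‖ ^ 2 := by
      calc _ = (c * m : ℝ) ^ (1 - 2 * be v) := by
            rw [hal, ← Real.rpow_natCast, ← Real.rpow_mul hcm.le]
            congr 1; push_cast; ring
        _ ≤ _ := hcmp.trans (hd.trans (P2 m))
    have hfin2 : (c * m : ℝ) ^ (-((1 - v) / (2 * (1 + v)))) ≤ ‖f0 - SS v c φ 0 m‖ :=
      le_of_sq_le_sq hfin (norm_nonneg _)
    rw [Real.mul_rpow hcr.le (by linarith)] at hfin2
    calc (c:ℝ) ^ (-((1 - v) / (2 * (1 + v)))) / L * (m:ℝ) ^ (-((1 - v) / (2 * (1 + v)))) =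
        L⁻¹ * ((c:ℝ) ^ (-((1 - v) / (2 * (1 + v)))) * (m:ℝ) ^ (-((1 - v) / (2 * (1 + v))))) := by
          ring
      _ ≤ _ := mul_le_mul_of_nonneg_left hfin2 hLi.le


end Pool.Agent.Run7.h614.PG
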